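import Mathlib
import Pool.Agent.R514.SP.Main
import Pool.Agent.R514.SP.Defs

set_option autoImplicit false

/-!
# A `G`-space without the equivariant dual lifting property

`X = ℓ₂` and `G` is the group of all its surjective linear isometries.  There is not even an unbounded linear
equivariant projection of `Lip₀(X)` onto `X*`.  The mathematical proof is by helper276.
-/

open scoped ENNReal NNReal

namespace Pool.Agent.Results.MP_6bd626_an.HilbertSpaceFails

open Pool.Agent.R514.SP

/-- There are a Banach space `X`, a group `G` and an action `ρ` of `G` on `X` by bounded (even isometric) linear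
automorphisms such that no linear map `P` from `Lip₀(X)` to the dual of `X`, bounded or not, satisfies
`P φ = φ` for all continuous linear functionals `φ` and `P (f ∘ ρ(g⁻¹)) = (P f) ∘ ρ(g⁻¹)` for all `f`, `g`. -/
theorem result : ∃ (X : Type) (_ : NormedAddCommGroup X) (_ : NormedSpace ℝ X) (_ : CompleteSpace X)
    (G : Type) (_ : Group G) (ρ : G →* (X ≃L[ℝ] X)), (∀ (g : G) (x : X), ‖ρ g x‖ = ‖x‖) ∧
    ¬ ∃ P : MapsToDual X, IsProjection P ∧ ∀ g : G, Commutes P (ρ g⁻¹) := by
  have hp : (2 : ℝ≥0∞) ≠ ∞ := by norm_num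
  refine ⟨XX ℕ ℝ 2, inferInstance, inferInstance, inferInstance,
    XX ℕ ℝ 2 ≃ₗᵢ[ℝ] XX ℕ ℝ 2, inferInstance,
    { toFun := fun g => g.toContinuousLinearEquiv
      map_one' := rfl
      map_mul' := fun _ _ => rfl }, fun g x => g.norm_map x, ?_⟩
  rintro ⟨P, hP, hG⟩
  have e : Nonempty (Option (ℕ ⊕ (ℕ ⊕ ℕ)) ≃ ℕ) :=
    ⟨(Denumerable.eqv (Option (ℕ ⊕ (ℕ ⊕ ℕ))))⟩
  obtain ⟨e⟩ := e
  refine core hp (by norm_num) e P hP (fun g f f' h x => ?_)
  have h1 := hG g⁻¹ f f' (by
    intro z
    rw [inv_inv]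
    exact h z) x
  rw [inv_inv] at h1
  exact h1

end Pool.Agent.Results.MP_6bd626_an.HilbertSpaceFails
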